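import Pool.Agent.N366.RS.Stm

/-!
# Rotation snarks: the outer edges

The leaves of the tree `T_(k+3)` are grouped into `3 M` blocks of four consecutive leaves, `M = 2 ^ k`.
The blocks are arranged in a circle: block `j` is followed by the block `sg M j`.  The outer edges join
the leaf `a` to the leaf `nxt M a`.
-/

set_option autoImplicit false

namespace Pool.Agent.K9h78.RotSnark

/-- the order of the blocks within one third: `0, 1, 2, 4, 5, 3, 6, 7, …` -/
def ordS (s : ℕ) : ℕ := if s = 3 ∨ s = 4 then s + 1 else if s = 5 then 3 else s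

/-- the inverse of `ordS` -/
def posS (s : ℕ) : ℕ := if s = 4 ∨ s = 5 then s - 1 else if s = 3 then 5 else s

theorem ord_pos (s : ℕ) : ordS (posS s) = s := by
  unfold ordS posS
  split_ifs <;> omega

theorem pos_ord (s : ℕ) : posS (ordS s) = s := by
  unfold ordS posS
  split_ifs <;> omega

theorem ordS_lt {M s : ℕ} (hM : 8 ≤ M) (h : s < M) : ordS s < M := by
  unfold ordS
  split_ifs <;> omega

theorem posS_lt {M s : ℕ} (hM : 8 ≤ M) (h : s < M) : posS s < M := by
  unfold posS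
  split_ifs <;> omega

/-- the block at the position `x` -/
def ordB (M x : ℕ) : ℕ := M * (x / M) + ordS (x % M)

/-- the position of the block `j` -/
def posB (M j : ℕ) : ℕ := M * (j / M) + posS (j % M)

/-- the block after the block `j` -/
def sg (M j : ℕ) : ℕ := ordB M ((posB M j + 1) % (3 * M))

/-- the block before the block `j` -/
def pg (M j : ℕ) : ℕ := ordB M ((posB M j + (3 * M - 1)) % (3 * M))

/-- the leaf to which the leaf `a` is joined by the outer edge which leaves it -/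
def nxt (M a : ℕ) : ℕ :=
  if a % 4 = 0 then a + 2 else if a % 4 = 2 then 4 * sg M (a / 4)
  else if a % 4 = 3 then a - 2 else 4 * sg M (a / 4) + 3

/-- the inverse of `nxt` -/
def prv (M a : ℕ) : ℕ :=
  if a % 4 = 2 then a - 2 else if a % 4 = 0 then 4 * pg M (a / 4) + 2
  else if a % 4 = 1 then a + 2 else 4 * pg M (a / 4) + 1

section
variable {M : ℕ}

theorem exists_coord {x : ℕ} (hx : x < 3 * M) : ∃ t s, t < 3 ∧ s < M ∧ x = M * t + s := by
  have hM : 0 < M := by omega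
  refine ⟨x / M, x % M, ?_, Nat.mod_lt _ hM, (Nat.div_add_mod x M).symm⟩
  exact Nat.div_lt_of_lt_mul (by rw [Nat.mul_comm]; exact hx)

theorem ordB_coord {t s : ℕ} (hs : s < M) : ordB M (M * t + s) = M * t + ordS s := by
  unfold ordB
  rw [Nat.mul_add_div (by omega), Nat.mul_add_mod, Nat.mod_eq_of_lt hs, Nat.div_eq_of_lt hs,
    Nat.add_zero]

theorem posB_coord {t s : ℕ} (hs : s < M) : posB M (M * t + s) = M * t + posS s := by
  unfold posB
  rw [Nat.mul_add_div (by omega), Nat.mul_add_mod, Nat.mod_eq_of_lt hs, Nat.div_eq_of_lt hs,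
    Nat.add_zero]

theorem coord_lt {t s : ℕ} (ht : t < 3) (hs : s < M) : M * t + s < 3 * M := by
  interval_cases t <;> omega

variable (hM : 8 ≤ M)
include hM

theorem ordB_lt {x : ℕ} (hx : x < 3 * M) : ordB M x < 3 * M := by
  obtain ⟨t, s, ht, hs, rfl⟩ := exists_coord hx
  rw [ordB_coord hs]
  exact coord_lt ht (ordS_lt hM hs)

theorem posB_lt {x : ℕ} (hx : x < 3 * M) : posB M x < 3 * M := by
  obtain ⟨t, s, ht, hs, rfl⟩ := exists_coord hx
  rw [posB_coord hs]
  exact coord_lt ht (posS_lt hM hs)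

theorem ordB_posB {x : ℕ} (hx : x < 3 * M) : ordB M (posB M x) = x := by
  obtain ⟨t, s, ht, hs, rfl⟩ := exists_coord hx
  rw [posB_coord hs, ordB_coord (posS_lt hM hs), ord_pos]

theorem posB_ordB {x : ℕ} (hx : x < 3 * M) : posB M (ordB M x) = x := by
  obtain ⟨t, s, ht, hs, rfl⟩ := exists_coord hx
  rw [ordB_coord hs, posB_coord (ordS_lt hM hs), pos_ord]

omit hM in
theorem rot_coord' {t s s' : ℕ} (ht : t < 3) (hs : s < M) (hs' : s' < M) :
    ∃ t', t' < 3 ∧ (M * t + s + M) % (3 * M) = M * t' + s ∧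
      (M * t + s' + M) % (3 * M) = M * t' + s' := by
  by_cases h : t = 2
  · subst h
    refine ⟨0, by omega, ?_, ?_⟩
    · rw [show M * 2 + s + M = s + 3 * M by omega, Nat.add_mod_right, Nat.mod_eq_of_lt (by omega)]
      omega
    · rw [show M * 2 + s' + M = s' + 3 * M by omega, Nat.add_mod_right, Nat.mod_eq_of_lt (by omega)]
      omega
  · refine ⟨t + 1, by omega, ?_, ?_⟩
    · rw [Nat.mod_eq_of_lt]
      · ring
      · interval_cases t <;> omega
    · rw [Nat.mod_eq_of_lt]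
      · ring
      · interval_cases t <;> omega

theorem ordB_rot {x : ℕ} (hx : x < 3 * M) :
    ordB M ((x + M) % (3 * M)) = (ordB M x + M) % (3 * M) := by
  obtain ⟨t, s, ht, hs, rfl⟩ := exists_coord hx
  obtain ⟨t', ht', h1, h2⟩ := rot_coord' ht hs (ordS_lt hM hs)
  rw [h1, ordB_coord hs, ordB_coord hs, h2]

theorem posB_rot {x : ℕ} (hx : x < 3 * M) :
    posB M ((x + M) % (3 * M)) = (posB M x + M) % (3 * M) := by
  obtain ⟨t, s, ht, hs, rfl⟩ := exists_coord hx
  obtain ⟨t', ht', h1, h2⟩ := rot_coord' ht hs (posS_lt hM hs)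
  rw [h1, posB_coord hs, posB_coord hs, h2]

theorem sg_lt (j : ℕ) : sg M j < 3 * M := ordB_lt hM (Nat.mod_lt _ (by omega))

theorem pg_lt (j : ℕ) : pg M j < 3 * M := ordB_lt hM (Nat.mod_lt _ (by omega))

theorem sg_ord {x : ℕ} (hx : x < 3 * M) : sg M (ordB M x) = ordB M ((x + 1) % (3 * M)) := by
  unfold sg
  rw [posB_ordB hM hx]

theorem sg_pg {j : ℕ} (hj : j < 3 * M) : sg M (pg M j) = j := by
  unfold pg
  rw [sg_ord hM (Nat.mod_lt _ (by omega)), Nat.mod_add_mod,
    show posB M j + (3 * M - 1) + 1 = posB M j + 3 * M by omega, Nat.add_mod_right,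
    Nat.mod_eq_of_lt (posB_lt hM hj), ordB_posB hM hj]

theorem pg_sg {j : ℕ} (hj : j < 3 * M) : pg M (sg M j) = j := by
  unfold pg sg
  rw [posB_ordB hM (Nat.mod_lt _ (by omega)), Nat.mod_add_mod,
    show posB M j + 1 + (3 * M - 1) = posB M j + 3 * M by omega, Nat.add_mod_right,
    Nat.mod_eq_of_lt (posB_lt hM hj), ordB_posB hM hj]

theorem sg_ne {j : ℕ} (hj : j < 3 * M) : sg M j ≠ j := by
  intro h
  have h1 := congrArg (posB M) h
  unfold sg at h1
  rw [posB_ordB hM (Nat.mod_lt _ (by omega))] at h1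
  have h2 := posB_lt hM hj
  rcases Nat.lt_or_ge (posB M j + 1) (3 * M) with h3 | h3
  · rw [Nat.mod_eq_of_lt h3] at h1
    omega
  · have : posB M j + 1 = 3 * M := by omega
    rw [this, Nat.mod_self] at h1
    omega

theorem sg_sg_ne {j : ℕ} (hj : j < 3 * M) : sg M (sg M j) ≠ j := by
  intro h
  have h1 := congrArg (posB M) h
  unfold sg at h1
  rw [posB_ordB hM (Nat.mod_lt _ (by omega)), posB_ordB hM (Nat.mod_lt _ (by omega)),
    Nat.mod_add_mod] at h1
  have h2 := posB_lt hM hj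
  rcases Nat.lt_or_ge (posB M j + 1 + 1) (3 * M) with h3 | h3
  · rw [Nat.mod_eq_of_lt h3] at h1
    omega
  · rw [Nat.mod_eq_sub_mod h3, Nat.mod_eq_of_lt (by omega)] at h1
    omega

theorem sg_rot {j : ℕ} (hj : j < 3 * M) :
    sg M ((j + M) % (3 * M)) = (sg M j + M) % (3 * M) := by
  unfold sg
  rw [posB_rot hM hj, ← ordB_rot hM (Nat.mod_lt _ (by omega)), Nat.mod_add_mod, Nat.mod_add_mod]
  congr 2
  omega

theorem sg_zero : sg M 0 = 1 := by
  have h : posB M 0 = 0 := by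
    rw [show (0 : ℕ) = M * 0 + 0 by omega, posB_coord (by omega)]
    rfl
  unfold sg
  rw [h, Nat.mod_eq_of_lt (by omega), show 0 + 1 = M * 0 + 1 by omega, ordB_coord (by omega)]
  simp [ordS]

theorem sg_one : sg M 1 = 2 := by
  have h : posB M 1 = 1 := by
    rw [show (1 : ℕ) = M * 0 + 1 by omega, posB_coord (by omega)]
    simp [posS]
  unfold sg
  rw [h, Nat.mod_eq_of_lt (by omega), show 1 + 1 = M * 0 + 2 by omega, ordB_coord (by omega)]
  simp [ordS]

theorem sg_two : sg M 2 = 4 := by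
  have h : posB M 2 = 2 := by
    rw [show (2 : ℕ) = M * 0 + 2 by omega, posB_coord (by omega)]
    simp [posS]
  unfold sg
  rw [h, Nat.mod_eq_of_lt (by omega), show 2 + 1 = M * 0 + 3 by omega, ordB_coord (by omega)]
  simp [ordS]

theorem sg_four : sg M 4 = 5 := by
  have h : posB M 4 = 3 := by
    rw [show (4 : ℕ) = M * 0 + 4 by omega, posB_coord (by omega)]
    simp [posS]
  unfold sg
  rw [h, Nat.mod_eq_of_lt (by omega), show 3 + 1 = M * 0 + 4 by omega, ordB_coord (by omega)]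
  simp [ordS]

/-! ### the map `nxt` -/

omit hM in
theorem nxt_0 (j : ℕ) : nxt M (4 * j) = 4 * j + 2 := by
  unfold nxt
  rw [if_pos (by omega)]

omit hM in
theorem nxt_2 (j : ℕ) : nxt M (4 * j + 2) = 4 * sg M j := by
  unfold nxt
  rw [if_neg (by omega), if_pos (by omega), show (4 * j + 2) / 4 = j by omega]

omit hM in
theorem nxt_3 (j : ℕ) : nxt M (4 * j + 3) = 4 * j + 1 := by
  unfold nxt
  rw [if_neg (by omega), if_neg (by omega), if_pos (by omega)]
  omega

omit hM in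
theorem nxt_1 (j : ℕ) : nxt M (4 * j + 1) = 4 * sg M j + 3 := by
  unfold nxt
  rw [if_neg (by omega), if_neg (by omega), if_neg (by omega), show (4 * j + 1) / 4 = j by omega]

omit hM in
theorem prv_2 (j : ℕ) : prv M (4 * j + 2) = 4 * j := by
  unfold prv
  rw [if_pos (by omega)]
  omega

omit hM in
theorem prv_0 (j : ℕ) : prv M (4 * j) = 4 * pg M j + 2 := by
  unfold prv
  rw [if_neg (by omega), if_pos (by omega), show (4 * j) / 4 = j by omega]

omit hM in
theorem prv_1 (j : ℕ) : prv M (4 * j + 1) = 4 * j + 3 := by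
  unfold prv
  rw [if_neg (by omega), if_neg (by omega), if_pos (by omega)]

omit hM in
theorem prv_3 (j : ℕ) : prv M (4 * j + 3) = 4 * pg M j + 1 := by
  unfold prv
  rw [if_neg (by omega), if_neg (by omega), if_neg (by omega), show (4 * j + 3) / 4 = j by omega]

omit hM in
theorem four_cases {a : ℕ} (ha : a < 12 * M) : ∃ j, j < 3 * M ∧
    (a = 4 * j ∨ a = 4 * j + 1 ∨ a = 4 * j + 2 ∨ a = 4 * j + 3) :=
  ⟨a / 4, by omega, by omega⟩

theorem nxt_lt {a : ℕ} (ha : a < 12 * M) : nxt M a < 12 * M := by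
  obtain ⟨j, hj, rfl | rfl | rfl | rfl⟩ := four_cases ha
  · rw [nxt_0]
    omega
  · rw [nxt_1]
    have := sg_lt hM j
    omega
  · rw [nxt_2]
    have := sg_lt hM j
    omega
  · rw [nxt_3]
    omega

theorem prv_lt {a : ℕ} (ha : a < 12 * M) : prv M a < 12 * M := by
  obtain ⟨j, hj, rfl | rfl | rfl | rfl⟩ := four_cases ha
  · rw [prv_0]
    have := pg_lt hM j
    omega
  · rw [prv_1]
    omega
  · rw [prv_2]
    omega
  · rw [prv_3]
    have := pg_lt hM j
    omega

theorem nxt_prv {a : ℕ} (ha : a < 12 * M) : nxt M (prv M a) = a := by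
  obtain ⟨j, hj, rfl | rfl | rfl | rfl⟩ := four_cases ha
  · rw [prv_0, nxt_2, sg_pg hM hj]
  · rw [prv_1, nxt_3]
  · rw [prv_2, nxt_0]
  · rw [prv_3, nxt_1, sg_pg hM hj]

theorem prv_nxt {a : ℕ} (ha : a < 12 * M) : prv M (nxt M a) = a := by
  obtain ⟨j, hj, rfl | rfl | rfl | rfl⟩ := four_cases ha
  · rw [nxt_0, prv_2]
  · rw [nxt_1, prv_3, pg_sg hM hj]
  · rw [nxt_2, prv_0, pg_sg hM hj]
  · rw [nxt_3, prv_1]

omit hM in
theorem nxt_mod (a : ℕ) : nxt M a % 2 = a % 2 := by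
  unfold nxt
  split_ifs <;> omega

omit hM in
theorem nxt_ne (a : ℕ) : nxt M a ≠ a := by
  unfold nxt
  split_ifs <;> omega

theorem nxt2_ne {a : ℕ} (ha : a < 12 * M) : nxt M (nxt M a) ≠ a := by
  obtain ⟨j, hj, rfl | rfl | rfl | rfl⟩ := four_cases ha
  · rw [nxt_0, nxt_2]
    have := sg_ne hM hj
    omega
  · rw [nxt_1, nxt_3]
    have := sg_ne hM hj
    omega
  · rw [nxt_2, nxt_0]
    have := sg_ne hM hj
    omega
  · rw [nxt_3, nxt_1]
    have := sg_ne hM hj
    omega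

omit hM in
theorem nxt3_ne {a : ℕ} (ha : a < 12 * M) : nxt M (nxt M (nxt M a)) ≠ a := by
  obtain ⟨j, hj, rfl | rfl | rfl | rfl⟩ := four_cases ha
  · rw [nxt_0, nxt_2, nxt_0]
    omega
  · rw [nxt_1, nxt_3, nxt_1]
    omega
  · rw [nxt_2, nxt_0, nxt_2]
    omega
  · rw [nxt_3, nxt_1, nxt_3]
    omega

theorem nxt4_ne {a : ℕ} (ha : a < 12 * M) : nxt M (nxt M (nxt M (nxt M a))) ≠ a := by
  obtain ⟨j, hj, rfl | rfl | rfl | rfl⟩ := four_cases ha
  · rw [nxt_0, nxt_2, nxt_0, nxt_2]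
    have := sg_sg_ne hM hj
    omega
  · rw [nxt_1, nxt_3, nxt_1, nxt_3]
    have := sg_sg_ne hM hj
    omega
  · rw [nxt_2, nxt_0, nxt_2, nxt_0]
    have := sg_sg_ne hM hj
    omega
  · rw [nxt_3, nxt_1, nxt_3, nxt_1]
    have := sg_sg_ne hM hj
    omega

theorem nxt_inj {a b : ℕ} (ha : a < 12 * M) (hb : b < 12 * M) (h : nxt M a = nxt M b) : a = b := by
  rw [← prv_nxt hM ha, ← prv_nxt hM hb, h]

omit hM in
theorem rot4 (j r : ℕ) (hr : r < 4) (hj : j < 3 * M) :
    (4 * j + r + 4 * M) % (12 * M) = 4 * ((j + M) % (3 * M)) + r := by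
  rcases Nat.lt_or_ge (j + M) (3 * M) with h | h
  · rw [Nat.mod_eq_of_lt h, Nat.mod_eq_of_lt (by omega)]
    omega
  · have e1 : (j + M) % (3 * M) = j + M - 3 * M := by
      rw [Nat.mod_eq_sub_mod h, Nat.mod_eq_of_lt (by omega)]
    have e2 : (4 * j + r + 4 * M) % (12 * M) = 4 * j + r + 4 * M - 12 * M := by
      rw [Nat.mod_eq_sub_mod (by omega), Nat.mod_eq_of_lt (by omega)]
    rw [e1, e2]
    omega

theorem nxt_rot {a : ℕ} (ha : a < 12 * M) :
    nxt M ((a + 4 * M) % (12 * M)) = (nxt M a + 4 * M) % (12 * M) := by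
  obtain ⟨j, hj, rfl | rfl | rfl | rfl⟩ := four_cases ha
  · have h := rot4 (M := M) j 0 (by omega) hj
    rw [Nat.add_zero, Nat.add_zero] at h
    rw [h, nxt_0, nxt_0, rot4 j 2 (by omega) hj]
  · have h := sg_lt hM j
    rw [rot4 j 1 (by omega) hj, nxt_1, nxt_1, rot4 _ 3 (by omega) h, sg_rot hM hj]
  · have h := sg_lt hM j
    have h' := rot4 (M := M) (sg M j) 0 (by omega) h
    rw [Nat.add_zero, Nat.add_zero] at h'
    rw [rot4 j 2 (by omega) hj, nxt_2, nxt_2, h', sg_rot hM hj]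
  · rw [rot4 j 3 (by omega) hj, nxt_3, nxt_3, rot4 _ 1 (by omega) hj]

end

end Pool.Agent.K9h78.RotSnark
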