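import Pool.Agent.K9h78.RotSnark.Graph

/-!
# Rotation snarks: there is no proper 3-edge-colouring
-/

set_option autoImplicit false

namespace Pool.Agent.K9h78.RotSnark

open Pool.Agent.N366.RS

theorem third : ∀ x y z : Fin 3, x ≠ y → x ≠ z → y ≠ z → z = -(x + y) := by decide

theorem core : ∀ a b c d m n : Fin 3, a ≠ m → b ≠ n → c ≠ m → d ≠ n →
    -(a + m) ≠ -(d + n) → -(c + m) ≠ -(b + n) →
    -(-(a + m) + -(d + n)) ≠ -(-(c + m) + -(b + n)) →
    (a = b ∧ c ≠ d ∧ -(-(-(a + m) + -(d + n)) + -(-(c + m) + -(b + n))) = -(c + d)) ∨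
    (a ≠ b ∧ c = d ∧ -(-(-(a + m) + -(d + n)) + -(-(c + m) + -(b + n))) = -(a + b)) := by
  decide

/-- The thirteen edges at the seven vertices of a block. -/
theorem block {a b c d m n α₁ α₂ β₁ β₂ π ρ e : Fin 3}
    (h1 : a ≠ m) (h2 : a ≠ α₁) (h3 : m ≠ α₁) (h4 : d ≠ n) (h5 : d ≠ α₂) (h6 : n ≠ α₂)
    (h7 : c ≠ m) (h8 : c ≠ β₁) (h9 : m ≠ β₁) (h10 : b ≠ n) (h11 : b ≠ β₂) (h12 : n ≠ β₂)
    (h13 : α₁ ≠ α₂) (h14 : α₁ ≠ π) (h15 : α₂ ≠ π) (h16 : β₁ ≠ β₂) (h17 : β₁ ≠ ρ) (h18 : β₂ ≠ ρ)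
    (h19 : π ≠ ρ) (h20 : π ≠ e) (h21 : ρ ≠ e) :
    (a = b ∧ c ≠ d ∧ e = -(c + d)) ∨ (a ≠ b ∧ c = d ∧ e = -(a + b)) := by
  obtain rfl := third _ _ _ h1 h2 h3
  obtain rfl := third _ _ _ h4 h5 h6
  obtain rfl := third _ _ _ h7 h8 h9
  obtain rfl := third _ _ _ h10 h11 h12
  obtain rfl := third _ _ _ h13 h14 h15
  obtain rfl := third _ _ _ h16 h17 h18
  obtain rfl := third _ _ _ h19 h20 h21
  exact core a b c d m n h1 h10 h7 h4 h13 h16 h19

variable {k : ℕ}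

/-- the root of the block `j` -/
def R (j : ℕ) (h : j < 3 * 2 ^ k) : Node (k + 3) :=
  nd (k + 1) j (by omega) (by rw [width_succ]; exact h)

/-- the middle vertices -/
def Q (j : ℕ) (h : j < 6 * 2 ^ k) : Node (k + 3) :=
  nd (k + 2) j (by omega) (by rw [width_two]; exact h)

theorem adj_QL {j a : ℕ} (h : j < 6 * 2 ^ k) (h' : a < 12 * 2 ^ k) (e : j = a / 2) :
    (G k).Adj (Q j h) (L a h') :=
  (adj_iff _ _).2 (Or.inl (Or.inl ⟨rfl, Or.inr e⟩))

theorem adj_RQ {j a : ℕ} (h : j < 3 * 2 ^ k) (h' : a < 6 * 2 ^ k) (e : j = a / 2) :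
    (G k).Adj (R j h) (Q a h') :=
  (adj_iff _ _).2 (Or.inl (Or.inl ⟨rfl, Or.inr e⟩))

theorem adj_LL {a b : ℕ} (h : a < 12 * 2 ^ k) (h' : b < 12 * 2 ^ k) (e : b = nxt (2 ^ k) a) :
    (G k).Adj (L a h) (L b h') :=
  (adj_iff _ _).2 (Or.inr ⟨rfl, rfl, Or.inl e⟩)

theorem L_ne {a b : ℕ} (h : a < 12 * 2 ^ k) (h' : b < 12 * 2 ^ k) (e : a ≠ b) :
    L a h ≠ L b h' := fun h => e (congrArg (fun p : Node (k + 3) => p.1.2) h)

theorem Q_ne {a b : ℕ} (h : a < 6 * 2 ^ k) (h' : b < 6 * 2 ^ k) (e : a ≠ b) :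
    Q a h ≠ Q b h' := fun h => e (congrArg (fun p : Node (k + 3) => p.1.2) h)

theorem LQ_ne {a b : ℕ} (h : a < 12 * 2 ^ k) (h' : b < 6 * 2 ^ k) : L a h ≠ Q b h' := fun h => by
  have := congrArg (fun p : Node (k + 3) => p.1.1) h
  simp [L, Q, nd] at this

theorem LR_ne {a b : ℕ} (h : a < 12 * 2 ^ k) (h' : b < 3 * 2 ^ k) : L a h ≠ R b h' := fun h => by
  have := congrArg (fun p : Node (k + 3) => p.1.1) h
  simp [L, R, nd] at this

theorem ne_par {p q : Node (k + 3)} (h : q.1.1 = k + 1) (hp : p.1.1 = k + 2) :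
    p ≠ par q := fun h' => by
  have := congrArg (fun p : Node (k + 3) => p.1.1) h'
  simp only [par_depth] at this
  omega

/-- a proper 3-edge-colouring -/
def Proper (f : Sym2 (Node (k + 3)) → Fin 3) : Prop :=
  ∀ u v w : Node (k + 3), (G k).Adj u v → (G k).Adj u w → v ≠ w → f s(u, v) ≠ f s(u, w)

/-- The left pair of the block after the block `i`, or the right pair of the block `i`. -/
theorem blk (hk : 3 ≤ k) {f : Sym2 (Node (k + 3)) → Fin 3} (hf : Proper f) (i j l : ℕ)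
    (hi : i < 3 * 2 ^ k) (hj : j < 3 * 2 ^ k) (hl : l < 3 * 2 ^ k)
    (hij : sg (2 ^ k) i = j) (hjl : sg (2 ^ k) j = l) :
    (f s(L (4 * i + 2) (by omega), L (4 * j) (by omega)) =
        f s(L (4 * i + 1) (by omega), L (4 * j + 3) (by omega)) ∧
      f s(L (4 * j + 2) (by omega), L (4 * l) (by omega)) ≠
        f s(L (4 * j + 1) (by omega), L (4 * l + 3) (by omega)) ∧
      f s(R j hj, par (R j hj)) = -(f s(L (4 * j + 2) (by omega), L (4 * l) (by omega)) +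
        f s(L (4 * j + 1) (by omega), L (4 * l + 3) (by omega)))) ∨
    (f s(L (4 * i + 2) (by omega), L (4 * j) (by omega)) ≠
        f s(L (4 * i + 1) (by omega), L (4 * j + 3) (by omega)) ∧
      f s(L (4 * j + 2) (by omega), L (4 * l) (by omega)) =
        f s(L (4 * j + 1) (by omega), L (4 * l + 3) (by omega)) ∧
      f s(R j hj, par (R j hj)) = -(f s(L (4 * i + 2) (by omega), L (4 * j) (by omega)) +
        f s(L (4 * i + 1) (by omega), L (4 * j + 3) (by omega)))) := by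
  have hM := pow_ge hk
  have hil : i ≠ l := by
    rintro rfl
    exact sg_sg_ne hM hi (by rw [hij, hjl])
  have hij' : i ≠ j := by
    rintro rfl
    exact sg_ne hM hi hij
  have hjl' : j ≠ l := by
    rintro rfl
    exact sg_ne hM hj hjl
  -- the leaves
  have A0 : (G k).Adj (L (4 * j) (by omega)) (L (4 * i + 2) (by omega)) :=
    (adj_LL _ _ (by rw [nxt_2, hij])).symm
  have A0' : (G k).Adj (L (4 * j) (by omega)) (L (4 * j + 2) (by omega)) :=
    adj_LL _ _ (by rw [nxt_0])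
  have A0q : (G k).Adj (L (4 * j) (by omega)) (Q (2 * j) (by omega)) :=
    (adj_QL _ _ (by omega)).symm
  have A1 : (G k).Adj (L (4 * j + 1) (by omega)) (L (4 * l + 3) (by omega)) :=
    adj_LL _ _ (by rw [nxt_1, hjl])
  have A1' : (G k).Adj (L (4 * j + 1) (by omega)) (L (4 * j + 3) (by omega)) :=
    (adj_LL _ _ (by rw [nxt_3])).symm
  have A1q : (G k).Adj (L (4 * j + 1) (by omega)) (Q (2 * j) (by omega)) :=
    (adj_QL _ _ (by omega)).symm
  have A2 : (G k).Adj (L (4 * j + 2) (by omega)) (L (4 * l) (by omega)) :=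
    adj_LL _ _ (by rw [nxt_2, hjl])
  have A2q : (G k).Adj (L (4 * j + 2) (by omega)) (Q (2 * j + 1) (by omega)) :=
    (adj_QL _ _ (by omega)).symm
  have A3 : (G k).Adj (L (4 * j + 3) (by omega)) (L (4 * i + 1) (by omega)) :=
    (adj_LL _ _ (by rw [nxt_1, hij])).symm
  have A3q : (G k).Adj (L (4 * j + 3) (by omega)) (Q (2 * j + 1) (by omega)) :=
    (adj_QL _ _ (by omega)).symm
  have B0 : (G k).Adj (Q (2 * j) (by omega)) (R j hj) := (adj_RQ _ _ (by omega)).symm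
  have B1 : (G k).Adj (Q (2 * j + 1) (by omega)) (R j hj) := (adj_RQ _ _ (by omega)).symm
  have C0 : (G k).Adj (R j hj) (par (R j hj)) := adj_par (by simp [R, nd])
  have sw : ∀ x y : Node (k + 3), f s(x, y) = f s(y, x) := fun x y => by rw [Sym2.eq_swap]
  refine block (a := f s(L (4 * i + 2) (by omega), L (4 * j) (by omega)))
    (b := f s(L (4 * i + 1) (by omega), L (4 * j + 3) (by omega)))
    (c := f s(L (4 * j + 2) (by omega), L (4 * l) (by omega)))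
    (d := f s(L (4 * j + 1) (by omega), L (4 * l + 3) (by omega)))
    (m := f s(L (4 * j) (by omega), L (4 * j + 2) (by omega)))
    (n := f s(L (4 * j + 1) (by omega), L (4 * j + 3) (by omega)))
    (α₁ := f s(Q (2 * j) (by omega), L (4 * j) (by omega)))
    (α₂ := f s(Q (2 * j) (by omega), L (4 * j + 1) (by omega)))
    (β₁ := f s(Q (2 * j + 1) (by omega), L (4 * j + 2) (by omega)))
    (β₂ := f s(Q (2 * j + 1) (by omega), L (4 * j + 3) (by omega)))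
    (π := f s(R j hj, Q (2 * j) (by omega)))
    (ρ := f s(R j hj, Q (2 * j + 1) (by omega)))
    (e := f s(R j hj, par (R j hj)))
    ?_ ?_ ?_ ?_ ?_ ?_ ?_ ?_ ?_ ?_ ?_ ?_ ?_ ?_ ?_ ?_ ?_ ?_ ?_ ?_ ?_
  · rw [sw (L (4 * i + 2) _)]
    exact hf _ _ _ A0 A0' (L_ne _ _ (by omega))
  · rw [sw (L (4 * i + 2) _), sw (Q _ _)]
    exact hf _ _ _ A0 A0q (LQ_ne _ _)
  · rw [sw (Q _ _)]
    exact hf _ _ _ A0' A0q (LQ_ne _ _)
  · exact hf _ _ _ A1 A1' (L_ne _ _ (by omega))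
  · rw [sw (Q _ _)]
    exact hf _ _ _ A1 A1q (LQ_ne _ _)
  · rw [sw (Q _ _)]
    exact hf _ _ _ A1' A1q (LQ_ne _ _)
  · rw [sw (L (4 * j) _)]
    exact hf _ _ _ A2 A0'.symm (L_ne _ _ (by omega))
  · rw [sw (Q _ _)]
    exact hf _ _ _ A2 A2q (LQ_ne _ _)
  · rw [sw (Q _ _), sw (L (4 * j) _)]
    exact hf _ _ _ A0'.symm A2q (LQ_ne _ _)
  · rw [sw (L (4 * i + 1) _), sw (L (4 * j + 1) _)]
    exact hf _ _ _ A3 A1'.symm (L_ne _ _ (by omega))
  · rw [sw (L (4 * i + 1) _), sw (Q _ _)]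
    exact hf _ _ _ A3 A3q (LQ_ne _ _)
  · rw [sw (L (4 * j + 1) _), sw (Q _ _)]
    exact hf _ _ _ A1'.symm A3q (LQ_ne _ _)
  · exact hf _ _ _ A0q.symm A1q.symm (L_ne _ _ (by omega))
  · rw [sw (R _ _)]
    exact hf _ _ _ A0q.symm B0 (LR_ne _ _)
  · rw [sw (R _ _)]
    exact hf _ _ _ A1q.symm B0 (LR_ne _ _)
  · exact hf _ _ _ A2q.symm A3q.symm (L_ne _ _ (by omega))
  · rw [sw (R _ _)]
    exact hf _ _ _ A2q.symm B1 (LR_ne _ _)
  · rw [sw (R _ _)]
    exact hf _ _ _ A3q.symm B1 (LR_ne _ _)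
  · exact hf _ _ _ B0.symm B1.symm (Q_ne _ _ (by omega))
  · exact hf _ _ _ B0.symm C0 (ne_par rfl rfl)
  · exact hf _ _ _ B1.symm C0 (ne_par rfl rfl)

/-- siblings among the roots of the blocks -/
theorem sibling (hk : 3 ≤ k) {f : Sym2 (Node (k + 3)) → Fin 3} (hf : Proper f) (j : ℕ)
    (hj : 2 * j + 1 < 3 * 2 ^ k) :
    f s(R (2 * j) (by omega), par (R (2 * j) (by omega))) ≠
      f s(R (2 * j + 1) hj, par (R (2 * j + 1) hj)) := by
  have e : par (R (2 * j + 1) hj) = par (R (2 * j) (by omega)) := by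
    apply node_ext
    · rw [par_depth, par_depth]
      rfl
    · rw [par_two (by simp only [R, nd]; omega), par_two (by simp only [R, nd]; omega)]
      simp only [R, nd]
      omega
  have h1 : (G k).Adj (R (2 * j) (by omega)) (par (R (2 * j) (by omega))) :=
    adj_par (by simp [R, nd])
  have h2 : (G k).Adj (R (2 * j + 1) hj) (par (R (2 * j + 1) hj)) := adj_par (by simp [R, nd])
  rw [e] at h2 ⊢
  rw [Sym2.eq_swap, Sym2.eq_swap (a := R (2 * j + 1) hj)]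
  refine hf _ _ _ h1.symm h2.symm fun h => ?_
  have := congrArg (fun p : Node (k + 3) => p.1.2) h
  simp only [R, nd] at this
  omega

theorem uncolourable (hk : 3 ≤ k) (f : Sym2 (Node (k + 3)) → Fin 3) (hf : Proper f) : False := by
  have hM := pow_ge hk
  have h0 := sg_pg hM (j := 0) (by omega)
  have hp := pg_lt hM 0
  generalize pg (2 ^ k) 0 = i at h0 hp
  have s0 := sg_zero hM
  have s1 := sg_one hM
  have s2 := sg_two hM
  have s4 := sg_four hM
  have s5 := sg_lt hM 5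
  have b0 := blk hk hf i 0 1 hp (by omega) (by omega) h0 s0
  have b1 := blk hk hf 0 1 2 (by omega) (by omega) (by omega) s0 s1
  have b2 := blk hk hf 1 2 4 (by omega) (by omega) (by omega) s1 s2
  have b4 := blk hk hf 2 4 5 (by omega) (by omega) (by omega) s2 s4
  have b5 := blk hk hf 4 5 _ (by omega) (by omega) s5 s4 rfl
  have q0 := sibling hk hf 0 (by omega)
  have q4 := sibling hk hf 2 (by omega)
  norm_num only at b0 b1 b2 b4 b5 q0 q4
  rcases b0 with ⟨-, n0, e0⟩ | ⟨-, n0, -⟩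
  · rcases b1 with ⟨n1, -⟩ | ⟨-, -, e1⟩
    · exact n0 n1
    · exact q0 (e0.trans e1.symm)
  · rcases b1 with ⟨-, n1, -⟩ | ⟨n1, -⟩
    · rcases b2 with ⟨n2, -⟩ | ⟨-, n2, -⟩
      · exact n1 n2
      · rcases b4 with ⟨-, n4, e4⟩ | ⟨n4, -⟩
        · rcases b5 with ⟨n5, -⟩ | ⟨-, -, e5⟩
          · exact n4 n5
          · exact q4 (e4.trans e5.symm)
        · exact n4 n2
    · exact n1 n0

end Pool.Agent.K9h78.RotSnark
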