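import Pool.Agent.K9h78.RotSnark.Graph

/-!
# Rotation snarks: cyclic 4-edge-connectivity
-/

set_option autoImplicit false

namespace Pool.Agent.K9h78.RotSnark

open Pool.Agent.N366.RS

/-! ### cyclic sequences of two values -/

theorem const_seq {g : ℕ → Bool} {P : ℕ} (h : ∀ m < P, g m = g (m + 1)) : ∀ x ≤ P, g x = g 0 := by
  intro x
  induction x with
  | zero => intro _; rfl
  | succ x ih => intro hx; rw [← h x (by omega), ih (by omega)]

theorem two_cuts {g : ℕ → Bool} {P m : ℕ} (hP : g P = g 0) (hm : m < P) (h : g m ≠ g (m + 1)) :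
    ∃ m' < P, m' ≠ m ∧ g m' ≠ g (m' + 1) := by
  by_contra hc
  push Not at hc
  apply h
  have h1 : ∀ x ≤ m, g x = g 0 := const_seq fun x hx => hc x (by omega) (by omega)
  have h2 : ∀ x, m + 1 ≤ x → x ≤ P → g x = g (m + 1) := by
    intro x hx
    induction x, hx using Nat.le_induction with
    | base => intro _; rfl
    | succ x hx ih => intro hx'; rw [← hc x (by omega) (by omega), ih (by omega)]
  rw [h1 m le_rfl, ← h2 P (by omega) le_rfl, hP]

/-! ### the two outer cycles -/

/-- the outer cycle of the leaves of the parity of `e`, `e = 0` or `e = 3` -/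
def Y (M e n : ℕ) : ℕ :=
  if n % 2 = 0 then 4 * ordB M (n / 2 % (3 * M)) + e else nxt M (4 * ordB M (n / 2 % (3 * M)) + e)

section
variable {M : ℕ} (hM : 8 ≤ M)
include hM

theorem Y_succ {e : ℕ} (he : e = 0 ∨ e = 3) (n : ℕ) : Y M e (n + 1) = nxt M (Y M e n) := by
  unfold Y
  rcases Nat.mod_two_eq_zero_or_one n with h | h
  · rw [if_neg (by omega), if_pos h, show (n + 1) / 2 = n / 2 by omega]
  · rw [if_pos (by omega), if_neg (by omega), show (n + 1) / 2 = n / 2 + 1 by omega]
    have h1 := sg_ord hM (x := n / 2 % (3 * M)) (Nat.mod_lt _ (by omega))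
    rw [Nat.mod_add_mod] at h1
    rw [← h1]
    rcases he with rfl | rfl
    · rw [Nat.add_zero, Nat.add_zero, nxt_0, nxt_2]
    · rw [nxt_3, nxt_1]

omit hM in
theorem Y_per {e : ℕ} : Y M e (6 * M) = Y M e 0 := by
  unfold Y
  rw [if_pos (by omega), if_pos (by omega), show 6 * M / 2 = 3 * M by omega, Nat.mod_self]
  simp

theorem Y_lt {e : ℕ} (he : e = 0 ∨ e = 3) (n : ℕ) : Y M e n < 12 * M := by
  have h := ordB_lt hM (x := n / 2 % (3 * M)) (Nat.mod_lt _ (by omega))
  have h' : 4 * ordB M (n / 2 % (3 * M)) + e < 12 * M := by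
    rcases he with rfl | rfl <;> omega
  unfold Y
  split_ifs
  · exact h'
  · exact nxt_lt hM h'

omit hM in
theorem Y_mod (e n : ℕ) : Y M e n % 2 = e % 2 := by
  unfold Y
  split_ifs
  · omega
  · rw [nxt_mod]
    omega

omit hM in
theorem Y_even {e n : ℕ} (h : n % 2 = 0) (hn : n < 6 * M) : Y M e n = 4 * ordB M (n / 2) + e := by
  unfold Y
  rw [if_pos h, Nat.mod_eq_of_lt (by omega)]

omit hM in
theorem Y_odd {e n : ℕ} (h : n % 2 = 1) (hn : n < 6 * M) :
    Y M e n = nxt M (4 * ordB M (n / 2) + e) := by
  unfold Y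
  rw [if_neg (by omega), Nat.mod_eq_of_lt (by omega)]

theorem ordB_inj {x y : ℕ} (hx : x < 3 * M) (hy : y < 3 * M) (h : ordB M x = ordB M y) : x = y := by
  rw [← posB_ordB hM hx, ← posB_ordB hM hy, h]

theorem Y_inj {e n n' : ℕ} (he : e = 0 ∨ e = 3) (hn : n < 6 * M) (hn' : n' < 6 * M)
    (h : Y M e n = Y M e n') : n = n' := by
  have key : ordB M (n / 2) = ordB M (n' / 2) ∧ n % 2 = n' % 2 := by
    rcases Nat.mod_two_eq_zero_or_one n with h1 | h1 <;>
    rcases Nat.mod_two_eq_zero_or_one n' with h2 | h2
    · rw [Y_even h1 hn, Y_even h2 hn'] at h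
      omega
    · rw [Y_even h1 hn, Y_odd h2 hn'] at h
      rcases he with rfl | rfl
      · rw [Nat.add_zero, Nat.add_zero, nxt_0] at h
        omega
      · rw [nxt_3] at h
        omega
    · rw [Y_odd h1 hn, Y_even h2 hn'] at h
      rcases he with rfl | rfl
      · rw [Nat.add_zero, Nat.add_zero, nxt_0] at h
        omega
      · rw [nxt_3] at h
        omega
    · rw [Y_odd h1 hn, Y_odd h2 hn'] at h
      rcases he with rfl | rfl
      · rw [Nat.add_zero, Nat.add_zero, nxt_0, nxt_0] at h
        omega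
      · rw [nxt_3, nxt_3] at h
        omega
  have := ordB_inj hM (by omega) (by omega) key.1
  omega

theorem Y_surj {e a : ℕ} (he : e = 0 ∨ e = 3) (ha : a < 12 * M) (h : a % 2 = e % 2) :
    ∃ n ≤ 6 * M, Y M e n = a := by
  obtain ⟨j, hj, h4⟩ := four_cases ha
  have hp := posB_lt hM hj
  rcases he with rfl | rfl
  · rcases h4 with rfl | rfl | rfl | rfl
    · refine ⟨2 * posB M j, by omega, ?_⟩
      rw [Y_even (by omega) (by omega), show 2 * posB M j / 2 = posB M j by omega, ordB_posB hM hj,
        Nat.add_zero]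
    · omega
    · refine ⟨2 * posB M j + 1, by omega, ?_⟩
      rw [Y_odd (by omega) (by omega), show (2 * posB M j + 1) / 2 = posB M j by omega,
        ordB_posB hM hj, Nat.add_zero, nxt_0]
    · omega
  · rcases h4 with rfl | rfl | rfl | rfl
    · omega
    · refine ⟨2 * posB M j + 1, by omega, ?_⟩
      rw [Y_odd (by omega) (by omega), show (2 * posB M j + 1) / 2 = posB M j by omega,
        ordB_posB hM hj, nxt_3]
    · omega
    · refine ⟨2 * posB M j, by omega, ?_⟩
      rw [Y_even (by omega) (by omega), show 2 * posB M j / 2 = posB M j by omega, ordB_posB hM hj]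

end

/-! ### small cuts -/

variable {k : ℕ}

/-- at most three edges leave the set given by `s` -/
def Small (s : Node (k + 3) → Bool) : Prop :=
  ∀ (T : Finset (Node (k + 3))) (O : Finset ℕ), (∀ v ∈ T, v.1.1 ≠ 0 ∧ s v ≠ s (par v)) →
    (∀ a ∈ O, a < 12 * 2 ^ k ∧ s (leaf (k + 3) a) ≠ s (leaf (k + 3) (nxt (2 ^ k) a))) →
    T.card + O.card ≤ 3

/-- all vertices but at most one are on the same side -/
def Trivial (s : Node (k + 3) → Bool) : Prop := ∃ x, ∀ v w, v ≠ x → w ≠ x → s v = s w

theorem depth_zero {v w : Node (k + 3)} (hv : v.1.1 = 0) (hw : w.1.1 = 0) : v = w :=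
  node_ext (hv.trans hw.symm) ((node_zero hv).trans (node_zero hw).symm)

/-- a unique cut leaf -/
theorem trivial_of_leaf {s : Node (k + 3) → Bool} {x : Node (k + 3)} (hx : x.1.1 = k + 3)
    (h : ∀ v : Node (k + 3), v.1.1 ≠ 0 → v ≠ x → s v = s (par v)) : Trivial s := by
  have key : ∀ d (v w : Node (k + 3)), v.1.1 = d → w.1.1 = 0 → v ≠ x → s v = s w := by
    intro d
    induction d with
    | zero => intro v w hv hw _; rw [depth_zero hv hw]
    | succ d ih =>
      intro v w hv hw hvx
      rw [h v (by omega) hvx]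
      refine ih _ _ (by rw [par_depth, hv]; rfl) hw fun hp => ?_
      have h1 := par_depth v
      rw [hp, hx, hv] at h1
      have := v.2.1
      omega
  refine ⟨x, fun v w hv hw => ?_⟩
  have c : (nd 0 0 (by omega) (by rw [width_zero]; omega) : Node (k + 3)).1.1 = 0 := rfl
  rw [key _ v _ rfl c hv, key _ w _ rfl c hw]

theorem par_leaf {h : ℕ} (hh : 2 * h + 1 < 12 * 2 ^ k) :
    par (L (2 * h + 1) hh : Node (k + 3)) = par (L (2 * h) (by omega)) := by
  apply node_ext
  · rw [par_depth, par_depth]
    rfl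
  · rw [par_two (by simp only [L, nd]; omega), par_two (by simp only [L, nd]; omega)]
    simp only [L, nd]
    omega

/-- two different leaves with one parent produce a cut leaf -/
theorem cut_leaf {s : Node (k + 3) → Bool} {h : ℕ} (hh : 2 * h + 1 < 12 * 2 ^ k)
    (hs : s (L (2 * h) (by omega)) ≠ s (L (2 * h + 1) hh)) :
    ∃ x : Node (k + 3), x.1.1 = k + 3 ∧ x.1.2 / 2 = h ∧ x.1.1 ≠ 0 ∧ s x ≠ s (par x) := by
  by_cases h1 : s (L (2 * h) (by omega)) = s (par (L (2 * h) (by omega)))
  · refine ⟨L (2 * h + 1) hh, rfl, by simp only [L, nd]; omega, by simp [L, nd], ?_⟩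
    rw [par_leaf, ← h1]
    exact hs.symm
  · exact ⟨L (2 * h) (by omega), rfl, by simp only [L, nd]; omega, by simp [L, nd], h1⟩

section
variable {i : ℕ}

/-- the children of a vertex -/
def ch (u : Node i) (b : Bool) : Node i :=
  if h : u.1.1 < i then nd (u.1.1 + 1) (2 * u.1.2 + b.toNat) (by omega) (by
    have h2 := u.2.2
    rcases Nat.eq_zero_or_pos u.1.1 with h0 | h0
    · rw [h0, node_zero h0, width_one]
      cases b <;> simp
    · rw [width_succ2 _ h0]
      have : b.toNat ≤ 1 := Bool.toNat_le b
      omega) else u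

theorem ch_val {u : Node i} (h : u.1.1 < i) (b : Bool) :
    (ch u b).1 = (u.1.1 + 1, 2 * u.1.2 + b.toNat) := by
  unfold ch
  rw [dif_pos h]
  rfl

theorem par_ch {u : Node i} (h : u.1.1 < i) (b : Bool) : par (ch u b) = u := by
  have h1 := ch_val h b
  rcases Nat.eq_zero_or_pos u.1.1 with h0 | h0
  · have h2 : (ch u b).1.1 ≤ 1 := by
      rw [h1]
      simp only
      omega
    apply node_ext
    · rw [par_one h2, h0]
    · rw [par_one h2, node_zero h0]
  · have h2 : ¬ (ch u b).1.1 ≤ 1 := by
      rw [h1]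
      simp only
      omega
    have : b.toNat ≤ 1 := Bool.toNat_le b
    apply node_ext
    · rw [par_two h2, h1]
      rfl
    · rw [par_two h2, h1]
      simp only
      omega

theorem ch_inj {u v : Node i} {b c : Bool} (hu : u.1.1 < i) (hv : v.1.1 < i)
    (h : ch u b = ch v c) : u = v ∧ b = c := by
  have h1 : u = v := by rw [← par_ch hu b, h, par_ch hv c]
  subst h1
  refine ⟨rfl, ?_⟩
  have h2 := congrArg (fun p : Node i => p.1.2) h
  simp only [ch_val hu] at h2
  cases b <;> cases c <;> simp_all

instance finite_node : Finite (Node i) := by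
  have : Set.Finite {p : ℕ × ℕ | p.1 ≤ i ∧ p.2 < width p.1} := by
    apply Set.Finite.subset ((Finset.range (i + 1) ×ˢ Finset.range (3 * 2 ^ i)).finite_toSet)
    rintro ⟨d, c⟩ ⟨h1, h2⟩
    simp only [Finset.coe_product, Finset.coe_range, Set.mem_prod, Set.mem_Iio]
    simp only at h1 h2
    refine ⟨by omega, lt_of_lt_of_le h2 ?_⟩
    unfold width
    split_ifs with h3
    · have : 0 < 2 ^ i := by positivity
      omega
    · exact Nat.mul_le_mul_left 3 (Nat.pow_le_pow_right (by omega) (by omega))
  exact this.to_subtype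

end

open Classical in
/-- a set of internal vertices has many leaving tree edges -/
theorem tree_count [Fintype (Node (k + 3))] {s : Node (k + 3) → Bool} {z : Bool}
    (hl : ∀ v : Node (k + 3), v.1.1 = k + 3 → s v = z)
    (hU : 2 ≤ (Finset.univ.filter fun v : Node (k + 3) => s v ≠ z).card) :
    4 ≤ (Finset.univ.filter fun v : Node (k + 3) => v.1.1 ≠ 0 ∧ s v ≠ s (par v)).card := by
  set U := Finset.univ.filter fun v : Node (k + 3) => s v ≠ z with hUdef
  set A := Finset.univ.filter fun v : Node (k + 3) => v.1.1 ≠ 0 ∧ s v = z ∧ s (par v) ≠ z with hA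
  set B := Finset.univ.filter fun v : Node (k + 3) => v.1.1 ≠ 0 ∧ s v ≠ z ∧ s (par v) = z with hB
  set C := Finset.univ.filter fun v : Node (k + 3) => v.1.1 ≠ 0 ∧ s v ≠ z ∧ s (par v) ≠ z with hC
  set c0 : Node (k + 3) := nd 0 0 (by omega) (by rw [width_zero]; omega) with hc0
  have hUlt : ∀ u ∈ U, u.1.1 < k + 3 := by
    intro u hu
    rw [hUdef, Finset.mem_filter] at hu
    rcases Nat.lt_or_ge u.1.1 (k + 3) with h | h
    · exact h
    · exact absurd (hl u (le_antisymm u.2.1 h)) hu.2
  have hAB : (Finset.univ.filter fun v : Node (k + 3) => v.1.1 ≠ 0 ∧ s v ≠ s (par v)) = A ∪ B := by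
    ext v
    simp only [hA, hB, Finset.mem_filter, Finset.mem_univ, true_and, Finset.mem_union]
    cases s v <;> cases s (par v) <;> cases z <;> simp
  have dAB : Disjoint A B := by
    rw [Finset.disjoint_left]
    intro v h1 h2
    rw [hA, Finset.mem_filter] at h1
    rw [hB, Finset.mem_filter] at h2
    exact h2.2.2.1 h1.2.2.1
  have dAC : Disjoint A C := by
    rw [Finset.disjoint_left]
    intro v h1 h2
    rw [hA, Finset.mem_filter] at h1
    rw [hC, Finset.mem_filter] at h2
    exact h2.2.2.1 h1.2.2.1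
  have dBC : Disjoint B C := by
    rw [Finset.disjoint_left]
    intro v h1 h2
    rw [hB, Finset.mem_filter] at h1
    rw [hC, Finset.mem_filter] at h2
    exact h2.2.2.2 h1.2.2.2
  have himg : ((U ×ˢ (Finset.univ : Finset Bool)).image fun p => ch p.1 p.2) ⊆ A ∪ C := by
    intro v hv
    rw [Finset.mem_image] at hv
    obtain ⟨⟨u, b⟩, hub, rfl⟩ := hv
    rw [Finset.mem_product] at hub
    have h1 := hUlt u hub.1
    have h2 := hub.1
    rw [hUdef, Finset.mem_filter] at h2
    simp only [hA, hC, Finset.mem_filter, Finset.mem_univ, true_and, Finset.mem_union, par_ch h1,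
      ch_val h1]
    have h3 := h2.2
    simp only at h3
    by_cases h4 : s (ch u b) = z
    · exact Or.inl ⟨by omega, h4, h3⟩
    · exact Or.inr ⟨by omega, h4, h3⟩
  have hcard : ((U ×ˢ (Finset.univ : Finset Bool)).image fun p => ch p.1 p.2).card = 2 * U.card := by
    rw [Finset.card_image_of_injOn, Finset.card_product]
    · simp [mul_comm]
    · rintro ⟨u, b⟩ hu ⟨v, c⟩ hv h
      simp only [Finset.coe_product, Set.mem_prod, Finset.mem_coe] at hu hv
      obtain ⟨h1, h2⟩ := ch_inj (hUlt u hu.1) (hUlt v hv.1) h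
      exact Prod.ext h1 h2
  rw [hAB, Finset.card_union_of_disjoint dAB]
  by_cases hc : c0 ∈ U
  · -- the centre belongs to the set
    have hUe : U = insert c0 (B ∪ C) := by
      ext v
      simp only [hB, hC, Finset.mem_filter, Finset.mem_univ, true_and, Finset.mem_insert,
        Finset.mem_union]
      constructor
      · intro hv
        have hv' := hv
        rw [hUdef, Finset.mem_filter] at hv'
        by_cases h0 : v.1.1 = 0
        · exact Or.inl (depth_zero h0 rfl)
        · by_cases h1 : s (par v) = z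
          · exact Or.inr (Or.inl ⟨h0, hv'.2, h1⟩)
          · exact Or.inr (Or.inr ⟨h0, hv'.2, h1⟩)
      · rintro (rfl | h | h)
        · exact hc
        · rw [hUdef, Finset.mem_filter]
          exact ⟨Finset.mem_univ _, h.2.1⟩
        · rw [hUdef, Finset.mem_filter]
          exact ⟨Finset.mem_univ _, h.2.1⟩
    have hn : c0 ∉ B ∪ C := by
      simp only [hB, hC, Finset.mem_filter, Finset.mem_univ, true_and, Finset.mem_union]
      rintro (h | h)
      · exact h.1 rfl
      · exact h.1 rfl
    have e1 : U.card = B.card + C.card + 1 := by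
      conv_lhs => rw [hUe]
      rw [Finset.card_insert_of_notMem hn, Finset.card_union_of_disjoint dBC]
    -- the third child of the centre
    set t : Node (k + 3) := nd 1 2 (by omega) (by rw [width_one]; omega) with ht
    have htAC : t ∈ A ∪ C := by
      have h1 : par t = c0 := depth_zero (by rw [par_depth]; rfl) rfl
      rw [hUdef, Finset.mem_filter] at hc
      simp only [hA, hC, Finset.mem_filter, Finset.mem_univ, true_and, Finset.mem_union, h1]
      by_cases h4 : s t = z
      · exact Or.inl ⟨by simp [ht, nd], h4, hc.2⟩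
      · exact Or.inr ⟨by simp [ht, nd], h4, hc.2⟩
    have htn : t ∉ (U ×ˢ (Finset.univ : Finset Bool)).image fun p => ch p.1 p.2 := by
      intro h
      rw [Finset.mem_image] at h
      obtain ⟨⟨u, b⟩, hub, h⟩ := h
      rw [Finset.mem_product] at hub
      have h1 := congrArg (fun p : Node (k + 3) => p.1) h
      simp only [ch_val (hUlt u hub.1), ht, nd, Prod.mk.injEq] at h1
      have h2 := node_zero (p := u) (by omega)
      have : b.toNat ≤ 1 := Bool.toNat_le b
      omega
    have e2 : 2 * U.card + 1 ≤ A.card + C.card := by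
      rw [← Finset.card_union_of_disjoint dAC, ← hcard, ← Finset.card_insert_of_notMem htn]
      exact Finset.card_le_card (Finset.insert_subset htAC himg)
    omega
  · have hUe : U = B ∪ C := by
      ext v
      simp only [hB, hC, Finset.mem_filter, Finset.mem_univ, true_and, Finset.mem_union]
      constructor
      · intro hv
        have hv' := hv
        rw [hUdef, Finset.mem_filter] at hv'
        have h0 : v.1.1 ≠ 0 := by
          intro h0
          rw [depth_zero h0 (w := c0) rfl] at hv
          exact hc hv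
        by_cases h1 : s (par v) = z
        · exact Or.inl ⟨h0, hv'.2, h1⟩
        · exact Or.inr ⟨h0, hv'.2, h1⟩
      · rintro (h | h)
        · rw [hUdef, Finset.mem_filter]
          exact ⟨Finset.mem_univ _, h.2.1⟩
        · rw [hUdef, Finset.mem_filter]
          exact ⟨Finset.mem_univ _, h.2.1⟩
    have e1 : U.card = B.card + C.card := by
      conv_lhs => rw [hUe]
      rw [Finset.card_union_of_disjoint dBC]
    have e2 : 2 * U.card ≤ A.card + C.card := by
      rw [← Finset.card_union_of_disjoint dAC, ← hcard]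
      exact Finset.card_le_card himg
    have e3 : 1 ≤ B.card := by
      have hne : U.Nonempty := Finset.card_pos.1 (by omega)
      obtain ⟨u, hu, hmin⟩ := Finset.exists_min_image U (fun v => v.1.1) hne
      have h0 : u.1.1 ≠ 0 := by
        intro h0
        rw [depth_zero h0 (w := c0) rfl] at hu
        exact hc hu
      refine Finset.card_pos.2 ⟨u, ?_⟩
      rw [hB, Finset.mem_filter]
      have hu' := hu
      rw [hUdef, Finset.mem_filter] at hu'
      refine ⟨Finset.mem_univ _, h0, hu'.2, ?_⟩
      by_contra h1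
      have h2 : par u ∈ U := by
        rw [hUdef, Finset.mem_filter]
        exact ⟨Finset.mem_univ _, h1⟩
      have h3 := hmin _ h2
      rw [par_depth] at h3
      omega
    omega

end Pool.Agent.K9h78.RotSnark
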