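import Pool.Agent.K9h78.RotSnark.Arith

/-!
# Rotation snarks: the graphs
-/

set_option autoImplicit false

namespace Pool.Agent.K9h78.RotSnark

open Pool.Agent.N366.RS

theorem width_zero : width 0 = 1 := rfl

theorem width_one : width 1 = 3 := rfl

theorem width_succ (d : ℕ) : width (d + 1) = 3 * 2 ^ d := by
  unfold width
  rw [if_neg (by omega), Nat.add_sub_cancel]

theorem width_succ2 (d : ℕ) (hd : 1 ≤ d) : width (d + 1) = 2 * width d := by
  obtain ⟨e, rfl⟩ : ∃ e, d = e + 1 := ⟨d - 1, by omega⟩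
  rw [width_succ, width_succ, pow_succ]
  ring

theorem width_leaf (k : ℕ) : width (k + 3) = 12 * 2 ^ k := by
  rw [width_succ (k + 2), pow_succ, pow_succ]
  ring

theorem width_two (k : ℕ) : width (k + 2) = 6 * 2 ^ k := by
  rw [width_succ (k + 1), pow_succ]
  ring

section
variable {i : ℕ}

theorem node_ext {p q : Node i} (h1 : p.1.1 = q.1.1) (h2 : p.1.2 = q.1.2) : p = q :=
  Subtype.ext (Prod.ext h1 h2)

/-- the vertex with given depth and number -/
def nd (d c : ℕ) (h : d ≤ i) (h' : c < width d) : Node i := ⟨(d, c), h, h'⟩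

theorem node_zero {p : Node i} (h : p.1.1 = 0) : p.1.2 = 0 := by
  have h' := p.2.2
  rw [h, width_zero] at h'
  omega

/-- the parent -/
def par (p : Node i) : Node i :=
  if h : p.1.1 ≤ 1 then ⟨(0, 0), Nat.zero_le _, by rw [width_zero]; omega⟩
  else ⟨(p.1.1 - 1, p.1.2 / 2), by have := p.2.1; simp only; omega, by
    have h1 := p.2.2
    have h2 := width_succ2 (p.1.1 - 1) (by omega)
    rw [show p.1.1 - 1 + 1 = p.1.1 by omega] at h2
    simp only
    omega⟩

theorem par_one {p : Node i} (h : p.1.1 ≤ 1) : (par p).1 = (0, 0) := by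
  unfold par
  rw [dif_pos h]

theorem par_two {p : Node i} (h : ¬ p.1.1 ≤ 1) : (par p).1 = (p.1.1 - 1, p.1.2 / 2) := by
  unfold par
  rw [dif_neg h]

theorem par_depth (p : Node i) : (par p).1.1 = p.1.1 - 1 := by
  by_cases h : p.1.1 ≤ 1
  · rw [par_one h]
    simp only
    omega
  · rw [par_two h]

theorem isChild_iff (p q : Node i) : IsChild p.1 q.1 ↔ q.1.1 ≠ 0 ∧ p = par q := by
  constructor
  · rintro ⟨h1, h2⟩
    refine ⟨by omega, ?_⟩
    rcases Nat.eq_zero_or_pos p.1.1 with h | h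
    · have h3 : q.1.1 ≤ 1 := by omega
      apply node_ext
      · rw [par_one h3, h]
      · rw [par_one h3, node_zero h]
    · have h3 : ¬ q.1.1 ≤ 1 := by omega
      apply node_ext
      · rw [par_two h3]
        simp only
        omega
      · rw [par_two h3]
        simp only
        omega
  · rintro ⟨h1, rfl⟩
    by_cases h : q.1.1 ≤ 1
    · rw [par_one h]
      exact ⟨by simp only; omega, Or.inl rfl⟩
    · rw [par_two h]
      exact ⟨by simp only; omega, Or.inr rfl⟩

end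

/-- The graph: the tree `T_(k+3)` together with the outer edges `a – nxt a`. -/
def G (k : ℕ) : SimpleGraph (Node (k + 3)) where
  Adj p q := (tree (k + 3)).Adj p q ∨ (p.1.1 = k + 3 ∧ q.1.1 = k + 3 ∧
    (q.1.2 = nxt (2 ^ k) p.1.2 ∨ p.1.2 = nxt (2 ^ k) q.1.2))
  symm := ⟨fun p q h => by
    rcases h with h | ⟨h1, h2, h3⟩
    · exact Or.inl h.symm
    · exact Or.inr ⟨h2, h1, h3.symm⟩⟩
  loopless := ⟨fun p h => by
    rcases h with h | ⟨h1, h2, h3⟩
    · exact h.ne rfl
    · rcases h3 with h3 | h3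
      · exact nxt_ne _ h3.symm
      · exact nxt_ne _ h3.symm⟩

variable {k : ℕ}

theorem adj_iff (p q : Node (k + 3)) : (G k).Adj p q ↔ (IsChild p.1 q.1 ∨ IsChild q.1 p.1) ∨
    (p.1.1 = k + 3 ∧ q.1.1 = k + 3 ∧ (q.1.2 = nxt (2 ^ k) p.1.2 ∨ p.1.2 = nxt (2 ^ k) q.1.2)) :=
  Iff.rfl

theorem adj_iff' (p q : Node (k + 3)) : (G k).Adj p q ↔ ((q.1.1 ≠ 0 ∧ p = par q) ∨
    (p.1.1 ≠ 0 ∧ q = par p)) ∨
    (p.1.1 = k + 3 ∧ q.1.1 = k + 3 ∧ (q.1.2 = nxt (2 ^ k) p.1.2 ∨ p.1.2 = nxt (2 ^ k) q.1.2)) := by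
  rw [adj_iff, isChild_iff, isChild_iff]

theorem adj_par {p : Node (k + 3)} (h : p.1.1 ≠ 0) : (G k).Adj p (par p) :=
  (adj_iff' _ _).2 (Or.inl (Or.inr ⟨h, rfl⟩))

/-- the leaf with the number `a` -/
def L (a : ℕ) (h : a < 12 * 2 ^ k) : Node (k + 3) :=
  nd (k + 3) a le_rfl (by rw [width_leaf]; exact h)

theorem eq_L {p : Node (k + 3)} (h : p.1.1 = k + 3) :
    ∃ h' : p.1.2 < 12 * 2 ^ k, p = L p.1.2 h' := by
  have h2 := p.2.2
  rw [h, width_leaf] at h2
  exact ⟨h2, node_ext h rfl⟩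

theorem leaf_eq {a : ℕ} (h : a < 12 * 2 ^ k) : leaf (k + 3) a = L a h := by
  apply node_ext
  · rfl
  · change a % width (k + 3) = a
    rw [width_leaf, Nat.mod_eq_of_lt h]

theorem pow_ge (hk : 3 ≤ k) : 8 ≤ 2 ^ k := by
  calc 8 = 2 ^ 3 := by norm_num
    _ ≤ 2 ^ k := Nat.pow_le_pow_right (by norm_num) hk

theorem adj_nxt (hk : 3 ≤ k) {a : ℕ} (h : a < 12 * 2 ^ k) :
    (G k).Adj (L a h) (L (nxt (2 ^ k) a) (nxt_lt (pow_ge hk) h)) :=
  (adj_iff _ _).2 (Or.inr ⟨rfl, rfl, Or.inl rfl⟩)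

/-- Every vertex has exactly three neighbours. -/
theorem nbrs (hk : 3 ≤ k) (v : Node (k + 3)) : ∃ x y z : Node (k + 3), x ≠ y ∧ x ≠ z ∧ y ≠ z ∧
    ∀ w, (G k).Adj v w ↔ w = x ∨ w = y ∨ w = z := by
  have hM := pow_ge hk
  rcases Nat.eq_zero_or_pos v.1.1 with h0 | h0
  · refine ⟨nd 1 0 (by omega) (by rw [width_one]; omega),
      nd 1 1 (by omega) (by rw [width_one]; omega), nd 1 2 (by omega) (by rw [width_one]; omega),
      ?_, ?_, ?_, ?_⟩
    · intro h
      exact absurd (congrArg (fun p : Node (k + 3) => p.1.2) h) (by simp [nd])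
    · intro h
      exact absurd (congrArg (fun p : Node (k + 3) => p.1.2) h) (by simp [nd])
    · intro h
      exact absurd (congrArg (fun p : Node (k + 3) => p.1.2) h) (by simp [nd])
    · intro w
      rw [adj_iff]
      constructor
      · rintro ((⟨h1, -⟩ | ⟨h1, -⟩) | ⟨h1, -⟩)
        · rw [h0] at h1
          have h2 := w.2.2
          rw [h1, width_one] at h2
          rcases (by omega : w.1.2 = 0 ∨ w.1.2 = 1 ∨ w.1.2 = 2) with h | h | h
          · exact Or.inl (node_ext h1 h)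
          · exact Or.inr (Or.inl (node_ext h1 h))
          · exact Or.inr (Or.inr (node_ext h1 h))
        · omega
        · omega
      · rintro (rfl | rfl | rfl)
        · exact Or.inl (Or.inl ⟨by simp [nd, h0], Or.inl h0⟩)
        · exact Or.inl (Or.inl ⟨by simp [nd, h0], Or.inl h0⟩)
        · exact Or.inl (Or.inl ⟨by simp [nd, h0], Or.inl h0⟩)
  rcases Nat.lt_or_ge v.1.1 (k + 3) with h1 | h1
  · have hw := width_succ2 v.1.1 h0
    have hv := v.2.2
    refine ⟨par v, nd (v.1.1 + 1) (2 * v.1.2) (by omega) (by omega),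
      nd (v.1.1 + 1) (2 * v.1.2 + 1) (by omega) (by omega), ?_, ?_, ?_, ?_⟩
    · intro h
      have h2 := congrArg (fun p : Node (k + 3) => p.1.1) h
      simp only [par_depth, nd] at h2
      omega
    · intro h
      have h2 := congrArg (fun p : Node (k + 3) => p.1.1) h
      simp only [par_depth, nd] at h2
      omega
    · intro h
      have h2 := congrArg (fun p : Node (k + 3) => p.1.2) h
      simp only [nd] at h2
      omega
    · intro w
      constructor
      · intro h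
        rw [adj_iff] at h
        rcases h with (⟨h2, h3⟩ | h) | ⟨h2, -⟩
        · rcases h3 with h3 | h3
          · omega
          · rcases Nat.mod_two_eq_zero_or_one w.1.2 with h4 | h4
            · exact Or.inr (Or.inl (node_ext h2 (by simp only [nd]; omega)))
            · exact Or.inr (Or.inr (node_ext h2 (by simp only [nd]; omega)))
        · rw [isChild_iff] at h
          exact Or.inl h.2
        · omega
      · rintro (rfl | rfl | rfl)
        · exact adj_par (by omega)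
        · exact (adj_iff _ _).2 (Or.inl (Or.inl ⟨rfl, Or.inr (by simp only [nd]; omega)⟩))
        · exact (adj_iff _ _).2 (Or.inl (Or.inl ⟨rfl, Or.inr (by simp only [nd]; omega)⟩))
  · have h2 : v.1.1 = k + 3 := le_antisymm v.2.1 h1
    obtain ⟨h3, h4⟩ := eq_L h2
    refine ⟨par v, L (nxt (2 ^ k) v.1.2) (nxt_lt hM h3), L (prv (2 ^ k) v.1.2) (prv_lt hM h3),
      ?_, ?_, ?_, ?_⟩
    · intro h
      have h5 := congrArg (fun p : Node (k + 3) => p.1.1) h
      simp only [par_depth, L, nd] at h5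
      omega
    · intro h
      have h5 := congrArg (fun p : Node (k + 3) => p.1.1) h
      simp only [par_depth, L, nd] at h5
      omega
    · intro h
      have h5 : nxt (2 ^ k) v.1.2 = prv (2 ^ k) v.1.2 :=
        congrArg (fun p : Node (k + 3) => p.1.2) h
      have h6 := nxt2_ne hM (prv_lt hM h3)
      rw [nxt_prv hM h3] at h6
      exact h6 h5
    · intro w
      constructor
      · intro h
        rw [adj_iff'] at h
        rcases h with (⟨h5, h6⟩ | h) | ⟨-, h5, h6⟩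
        · have h7 := par_depth w
          rw [← h6, h2] at h7
          have h8 := w.2.1
          omega
        · exact Or.inl h.2
        · rcases h6 with h6 | h6
          · exact Or.inr (Or.inl (node_ext h5 h6))
          · refine Or.inr (Or.inr (node_ext h5 ?_))
            obtain ⟨h7, -⟩ := eq_L h5
            simp only [L, nd]
            rw [h6, prv_nxt hM h7]
      · rintro (rfl | rfl | rfl)
        · exact adj_par (by omega)
        · exact (adj_iff _ _).2 (Or.inr ⟨h2, rfl, Or.inl rfl⟩)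
        · refine (adj_iff _ _).2 (Or.inr ⟨h2, rfl, Or.inr ?_⟩)
          simp only [L, nd]
          exact (nxt_prv hM h3).symm

theorem cubic (hk : 3 ≤ k) (v : Node (k + 3)) : ((G k).neighborSet v).ncard = 3 := by
  obtain ⟨x, y, z, h1, h2, h3, h4⟩ := nbrs hk v
  have : (G k).neighborSet v = {x, y, z} := by
    ext w
    rw [SimpleGraph.mem_neighborSet, h4]
    simp
  rw [this]
  exact Set.ncard_eq_three.2 ⟨x, y, z, h1, h2, h3, rfl⟩

/-- in arithmetical form: the two kinds of adjacency, with the parity of the leaves -/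
theorem adj_cases {p q : Node (k + 3)} (h : (G k).Adj p q) :
    (q.1.1 = p.1.1 + 1 ∧ (p.1.1 = 0 ∨ p.1.2 = q.1.2 / 2)) ∨
    (p.1.1 = q.1.1 + 1 ∧ (q.1.1 = 0 ∨ q.1.2 = p.1.2 / 2)) ∨
    ((p.1.1 = k + 3 ∧ q.1.1 = k + 3) ∧ p.1.2 % 2 = q.1.2 % 2 ∧
      (q.1.2 = nxt (2 ^ k) p.1.2 ∨ p.1.2 = nxt (2 ^ k) q.1.2)) := by
  rw [adj_iff] at h
  rcases h with (h | h) | ⟨h1, h2, h3⟩
  · exact Or.inl h
  · exact Or.inr (Or.inl h)
  · refine Or.inr (Or.inr ⟨⟨h1, h2⟩, ?_, h3⟩)
    rcases h3 with h3 | h3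
    · rw [h3, nxt_mod]
    · rw [h3, nxt_mod]

theorem node_ne {i : ℕ} {p q : Node i} (h : p ≠ q) : p.1.1 ≠ q.1.1 ∨ p.1.2 ≠ q.1.2 := by
  by_contra h'
  push Not at h'
  exact h (node_ext h'.1 h'.2)

theorem outer3 {M a b c : ℕ} (ha : a < 12 * M) (h1 : b = nxt M a ∨ a = nxt M b)
    (h2 : c = nxt M b ∨ b = nxt M c) (h3 : a = nxt M c ∨ c = nxt M a) (n1 : a ≠ b) (n2 : b ≠ c)
    (n3 : c ≠ a) : False := by
  rcases h1 with h1 | h1 <;> rcases h2 with h2 | h2 <;> rcases h3 with h3 | h3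
  · exact nxt3_ne ha (by rw [← h1, ← h2, ← h3])
  · exact n2 (h1.trans h3.symm)
  · exact n1 (h3.trans h2.symm)
  · exact n2 (h1.trans h3.symm)
  · exact n3 (h2.trans h1.symm)
  · exact n3 (h2.trans h1.symm)
  · exact n1 (h3.trans h2.symm)
  · exact nxt3_ne ha (by rw [← h3, ← h2, ← h1])

theorem outer4 {M a b c d : ℕ} (hM : 8 ≤ M) (ha : a < 12 * M) (hb : b < 12 * M) (hc : c < 12 * M)
    (hd : d < 12 * M) (h1 : b = nxt M a ∨ a = nxt M b)
    (h2 : c = nxt M b ∨ b = nxt M c) (h3 : d = nxt M c ∨ c = nxt M d)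
    (h4 : a = nxt M d ∨ d = nxt M a) (n1 : a ≠ c) (n2 : b ≠ d) : False := by
  rcases h1 with h1 | h1 <;> rcases h2 with h2 | h2
  · rcases h3 with h3 | h3
    · rcases h4 with h4 | h4
      · exact nxt4_ne hM ha (by rw [← h1, ← h2, ← h3, ← h4])
      · exact n2 (h1.trans h4.symm)
    · exact n2 (nxt_inj hM hb hd (h2.symm.trans h3))
  · exact n1 (nxt_inj hM ha hc (h1.symm.trans h2))
  · exact n1 (h1.trans h2.symm)
  · rcases h3 with h3 | h3
    · exact n2 (h2.trans h3.symm)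
    · rcases h4 with h4 | h4
      · exact n2 (nxt_inj hM hb hd (h1.symm.trans h4))
      · exact nxt4_ne hM ha (by rw [← h4, ← h3, ← h2, ← h1])

theorem no_triangle {p q r : Node (k + 3)} (h1 : (G k).Adj p q) (h2 : (G k).Adj q r)
    (h3 : (G k).Adj r p) : False := by
  have n1 := node_ne h1.ne
  have n2 := node_ne h2.ne
  have n3 := node_ne h3.ne
  have z1 : p.1.1 = 0 → p.1.2 = 0 := node_zero
  have z2 : q.1.1 = 0 → q.1.2 = 0 := node_zero
  have z3 : r.1.1 = 0 → r.1.2 = 0 := node_zero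
  rcases adj_cases h1 with h1 | h1 | ⟨⟨d1, d2⟩, p1, h1⟩ <;>
  rcases adj_cases h2 with h2 | h2 | ⟨⟨d3, d4⟩, p2, h2⟩ <;>
  rcases adj_cases h3 with h3 | h3 | ⟨⟨d5, d6⟩, p3, h3⟩ <;>
  first
  | omega
  | skip
  obtain ⟨b1, -⟩ := eq_L d1
  exact outer3 b1 h1 h2 h3 (by omega) (by omega) (by omega)

theorem no_square (hk : 3 ≤ k) {p q r s : Node (k + 3)} (h1 : (G k).Adj p q) (h2 : (G k).Adj q r)
    (h3 : (G k).Adj r s) (h4 : (G k).Adj s p) (hpr : p ≠ r) (hqs : q ≠ s) : False := by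
  have hM := pow_ge hk
  have n1 := node_ne hpr
  have n2 := node_ne hqs
  have z1 : p.1.1 = 0 → p.1.2 = 0 := node_zero
  have z2 : q.1.1 = 0 → q.1.2 = 0 := node_zero
  have z3 : r.1.1 = 0 → r.1.2 = 0 := node_zero
  have z4 : s.1.1 = 0 → s.1.2 = 0 := node_zero
  have l1 := p.2.1
  have l2 := q.2.1
  have l3 := r.2.1
  have l4 := s.2.1
  rcases adj_cases h1 with h1 | h1 | ⟨⟨d1, d2⟩, p1, h1⟩ <;>
  rcases adj_cases h2 with h2 | h2 | ⟨⟨d3, d4⟩, p2, h2⟩ <;>
  rcases adj_cases h3 with h3 | h3 | ⟨⟨d5, d6⟩, p3, h3⟩ <;>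
  rcases adj_cases h4 with h4 | h4 | ⟨⟨d7, d8⟩, p4, h4⟩ <;>
  first
  | omega
  | skip
  obtain ⟨b1, -⟩ := eq_L d1
  obtain ⟨b2, -⟩ := eq_L d2
  obtain ⟨b3, -⟩ := eq_L d4
  obtain ⟨b4, -⟩ := eq_L d6
  exact outer4 hM b1 b2 b3 b4 h1 h2 h3 h4 (by omega) (by omega)

theorem girth (hk : 3 ≤ k) (v : Node (k + 3)) (c : (G k).Walk v v) (hc : c.IsCycle) :
    5 ≤ c.length := by
  have h3 := hc.three_le_length
  by_contra h5
  have hn := hc.support_nodup
  cases c with
  | nil => simp at h3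
  | cons a1 c => cases c with
    | nil => simp at h3
    | cons a2 c => cases c with
      | nil => simp at h3
      | cons a3 c => cases c with
        | nil => exact no_triangle a1 a2 a3
        | cons a4 c => cases c with
          | nil =>
            simp only [SimpleGraph.Walk.support_cons, SimpleGraph.Walk.support_nil, List.tail_cons,
              List.nodup_cons, List.mem_cons, List.not_mem_nil, or_false, not_or] at hn
            refine no_square hk a1 a2 a3 a4 ?_ ?_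
            · exact fun h => hn.2.1.2 h.symm
            · exact fun h => hn.1.2.1 h
          | cons a5 c =>
            simp only [SimpleGraph.Walk.length_cons] at h5
            omega

end Pool.Agent.K9h78.RotSnark
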