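import Pool.Agent.K9h78.RotSnark.Col
import Pool.Agent.K9h78.RotSnark.Cyc

/-!
# Rotation snarks: the main theorem
-/

set_option autoImplicit false

namespace Pool.Agent.K9h78.RotSnark

open Pool.Agent.N366.RS

variable {k : ℕ}

theorem trivial_of_card (_hk : 3 ≤ k) {s : Node (k + 3) → Bool}
    (hT : ∀ T : Finset (Node (k + 3)), (∀ v ∈ T, v.1.1 ≠ 0 ∧ s v ≠ s (par v)) → T.card ≤ 1)
    {h : ℕ} (hh : 2 * h + 1 < 12 * 2 ^ k)
    (hs : s (L (2 * h) (by omega)) ≠ s (L (2 * h + 1) hh)) : Trivial s := by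
  classical
  obtain ⟨x, hx, -, hx0, hxs⟩ := cut_leaf hh hs
  refine trivial_of_leaf hx fun v hv hvx => ?_
  by_contra hc
  have := hT {v, x} (by
    intro w hw
    rw [Finset.mem_insert, Finset.mem_singleton] at hw
    rcases hw with rfl | rfl
    · exact ⟨hv, hc⟩
    · exact ⟨hx0, hxs⟩)
  rw [Finset.card_pair hvx] at this
  omega

/-- Cuts with at most three edges are trivial. -/
theorem small_cut (hk : 3 ≤ k) {s : Node (k + 3) → Bool} (hS : Small s) : Trivial s := by
  classical
  have hM := pow_ge hk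
  have hw := width_leaf k
  set g : ℕ → ℕ → Bool := fun e n => s (leaf (k + 3) (Y (2 ^ k) e n)) with hg
  have hgp : ∀ e, g e (6 * 2 ^ k) = g e 0 := fun e => by simp only [hg, Y_per]
  have hcutO : ∀ e, e = 0 ∨ e = 3 → ∀ m, g e m ≠ g e (m + 1) →
      Y (2 ^ k) e m < 12 * 2 ^ k ∧ s (leaf (k + 3) (Y (2 ^ k) e m)) ≠
        s (leaf (k + 3) (nxt (2 ^ k) (Y (2 ^ k) e m))) := by
    intro e he m h
    refine ⟨Y_lt hM he m, ?_⟩
    rw [← Y_succ hM he]
    exact h
  have hLe : ∀ (a : ℕ) (h : a < 12 * 2 ^ k), s (L a h) = s (leaf (k + 3) a) := fun a h => by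
    rw [leaf_eq h]
  -- a cut edge in one outer cycle only
  have one : ∀ e e', (e = 0 ∧ e' = 3 ∨ e = 3 ∧ e' = 0) →
      (∃ m < 6 * 2 ^ k, g e m ≠ g e (m + 1)) →
      (∀ m < 6 * 2 ^ k, g e' m = g e' (m + 1)) → Trivial s := by
    rintro e e' hee ⟨m, hm, hm'⟩ hc
    have he : e = 0 ∨ e = 3 := by omega
    have he' : e' = 0 ∨ e' = 3 := by omega
    obtain ⟨n, hn, hnm, hn'⟩ := two_cuts (hgp e) hm hm'
    have hT : ∀ T : Finset (Node (k + 3)), (∀ v ∈ T, v.1.1 ≠ 0 ∧ s v ≠ s (par v)) →
        T.card ≤ 1 := by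
      intro T hT
      have h1 := hS T {Y (2 ^ k) e m, Y (2 ^ k) e n} hT (by
        intro a ha
        rw [Finset.mem_insert, Finset.mem_singleton] at ha
        rcases ha with rfl | rfl
        · exact hcutO e he m hm'
        · exact hcutO e he n hn')
      rw [Finset.card_pair] at h1
      · omega
      · intro h
        exact hnm (Y_inj hM he hm hn h).symm
    have hc' := const_seq hc
    -- some leaf of the first cycle differs from the second cycle
    obtain ⟨n₀, hn₀⟩ : ∃ n₀, g e n₀ ≠ g e' 0 := by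
      by_contra h
      push Not at h
      exact hm' ((h m).trans (h (m + 1)).symm)
    have ha := Y_lt hM he n₀
    have hap := Y_mod (M := 2 ^ k) e n₀
    generalize hade : Y (2 ^ k) e n₀ = a at ha hap
    have hga : s (leaf (k + 3) a) ≠ g e' 0 := by
      rw [← hade]
      exact hn₀
    have hb : ∀ b < 12 * 2 ^ k, b % 2 = e' % 2 → s (leaf (k + 3) b) = g e' 0 := by
      intro b hb hbp
      obtain ⟨n', hn1, hn2⟩ := Y_surj hM he' hb hbp
      rw [← hc' n' hn1]
      simp only [hg, hn2]
    refine trivial_of_card hk hT (h := a / 2) (by omega) ?_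
    rw [hLe, hLe]
    rcases hee with ⟨rfl, rfl⟩ | ⟨rfl, rfl⟩
    · rw [show 2 * (a / 2) = a by omega, hb (a + 1) (by omega) (by omega)]
      exact hga
    · rw [show 2 * (a / 2) + 1 = a by omega, hb (2 * (a / 2)) (by omega) (by omega)]
      exact hga.symm
  by_cases H1 : ∃ m < 6 * 2 ^ k, g 0 m ≠ g 0 (m + 1)
  · by_cases H2 : ∃ m < 6 * 2 ^ k, g 3 m ≠ g 3 (m + 1)
    · exfalso
      obtain ⟨m, hm, hm'⟩ := H1
      obtain ⟨n, hn, hnm, hn'⟩ := two_cuts (hgp 0) hm hm'
      obtain ⟨p, hp, hp'⟩ := H2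
      obtain ⟨q, hq, hqp, hq'⟩ := two_cuts (hgp 3) hp hp'
      have h1 := hS ∅ ({Y (2 ^ k) 0 m, Y (2 ^ k) 0 n} ∪ {Y (2 ^ k) 3 p, Y (2 ^ k) 3 q})
        (by simp) (by
        intro a ha
        rw [Finset.mem_union, Finset.mem_insert, Finset.mem_singleton, Finset.mem_insert,
          Finset.mem_singleton] at ha
        rcases ha with (rfl | rfl) | (rfl | rfl)
        · exact hcutO 0 (Or.inl rfl) m hm'
        · exact hcutO 0 (Or.inl rfl) n hn'
        · exact hcutO 3 (Or.inr rfl) p hp'
        · exact hcutO 3 (Or.inr rfl) q hq')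
      rw [Finset.card_union_of_disjoint, Finset.card_pair, Finset.card_pair] at h1
      · simp at h1
      · intro h
        exact hqp (Y_inj hM (Or.inr rfl) hp hq h).symm
      · intro h
        exact hnm (Y_inj hM (Or.inl rfl) hm hn h).symm
      · rw [Finset.disjoint_left]
        intro a ha hb
        rw [Finset.mem_insert, Finset.mem_singleton] at ha hb
        have h2 : a % 2 = 0 := by
          rcases ha with rfl | rfl
          · exact Y_mod 0 m
          · exact Y_mod 0 n
        have h3 : a % 2 = 1 := by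
          rcases hb with rfl | rfl
          · exact Y_mod 3 p
          · exact Y_mod 3 q
        omega
    · push Not at H2
      exact one 0 3 (Or.inl ⟨rfl, rfl⟩) H1 H2
  · by_cases H2 : ∃ m < 6 * 2 ^ k, g 3 m ≠ g 3 (m + 1)
    · push Not at H1
      exact one 3 0 (Or.inr ⟨rfl, rfl⟩) H2 H1
    · push Not at H1 H2
      have c1 := const_seq H1
      have c2 := const_seq H2
      have v1 : ∀ b < 12 * 2 ^ k, b % 2 = 0 → s (leaf (k + 3) b) = g 0 0 := by
        intro b hb hbp
        obtain ⟨n', hn1, hn2⟩ := Y_surj hM (Or.inl rfl) hb hbp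
        rw [← c1 n' hn1]
        simp only [hg, hn2]
      have v2 : ∀ b < 12 * 2 ^ k, b % 2 = 1 → s (leaf (k + 3) b) = g 3 0 := by
        intro b hb hbp
        obtain ⟨n', hn1, hn2⟩ := Y_surj hM (Or.inr rfl) hb hbp
        rw [← c2 n' hn1]
        simp only [hg, hn2]
      by_cases hz : g 0 0 = g 3 0
      · -- all leaves have the same value
        haveI : Fintype (Node (k + 3)) := Fintype.ofFinite _
        have hl : ∀ v : Node (k + 3), v.1.1 = k + 3 → s v = g 0 0 := by
          intro v hv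
          obtain ⟨h1, h2⟩ := eq_L hv
          rw [h2, hLe]
          rcases Nat.mod_two_eq_zero_or_one v.1.2 with h3 | h3
          · exact v1 _ h1 h3
          · rw [hz]
            exact v2 _ h1 h3
        by_cases hU : 2 ≤ (Finset.univ.filter fun v : Node (k + 3) => s v ≠ g 0 0).card
        · exfalso
          have h4 := tree_count hl hU
          have h5 := hS (Finset.univ.filter fun v : Node (k + 3) => v.1.1 ≠ 0 ∧ s v ≠ s (par v)) ∅
            (fun v hv => (Finset.mem_filter.1 hv).2) (by simp)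
          rw [Finset.card_empty] at h5
          omega
        · have h6 : (Finset.univ.filter fun v : Node (k + 3) => s v ≠ g 0 0).card ≤ 1 := by omega
          rw [Finset.card_le_one] at h6
          by_cases h7 : ∃ x, s x ≠ g 0 0
          · obtain ⟨x, hx⟩ := h7
            have h8 : ∀ v, v ≠ x → s v = g 0 0 := by
              intro v hv
              by_contra hv'
              exact hv (h6 v (Finset.mem_filter.2 ⟨Finset.mem_univ _, hv'⟩) x
                (Finset.mem_filter.2 ⟨Finset.mem_univ _, hx⟩))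
            exact ⟨x, fun v w hv hw => by rw [h8 v hv, h8 w hw]⟩
          · push Not at h7
            exact ⟨leaf (k + 3) 0, fun v w _ _ => by rw [h7 v, h7 w]⟩
      · -- every parent of leaves has a cut leaf
        exfalso
        have hx : ∀ h : ℕ, 2 * h + 1 < 12 * 2 ^ k → ∃ x : Node (k + 3), x.1.1 = k + 3 ∧
            x.1.2 / 2 = h ∧ x.1.1 ≠ 0 ∧ s x ≠ s (par x) := by
          intro h hh
          refine cut_leaf hh ?_
          rw [hLe, hLe, v1 _ (by omega) (by omega), v2 _ hh (by omega)]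
          exact hz
        obtain ⟨x0, -, a0, b0, c0⟩ := hx 0 (by omega)
        obtain ⟨x1, -, a1, b1, c1⟩ := hx 1 (by omega)
        obtain ⟨x2, -, a2, b2, c2⟩ := hx 2 (by omega)
        obtain ⟨x3, -, a3, b3, c3⟩ := hx 3 (by omega)
        have n01 : x0 ≠ x1 := by rintro rfl; omega
        have n02 : x0 ≠ x2 := by rintro rfl; omega
        have n03 : x0 ≠ x3 := by rintro rfl; omega
        have n12 : x1 ≠ x2 := by rintro rfl; omega
        have n13 : x1 ≠ x3 := by rintro rfl; omega
        have n23 : x2 ≠ x3 := by rintro rfl; omega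
        have h1 := hS {x0, x1, x2, x3} ∅ (by
          intro v hv
          simp only [Finset.mem_insert, Finset.mem_singleton] at hv
          rcases hv with rfl | rfl | rfl | rfl
          · exact ⟨b0, c0⟩
          · exact ⟨b1, c1⟩
          · exact ⟨b2, c2⟩
          · exact ⟨b3, c3⟩) (by simp)
        rw [Finset.card_insert_of_notMem (by simp [n01, n02, n03]),
          Finset.card_insert_of_notMem (by simp [n12, n13]), Finset.card_pair n23] at h1
        simp at h1

/-- the edge above the vertex `v` -/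
def eT (v : Node (k + 3)) : Sym2 (Node (k + 3)) := s(v, par v)

/-- the outer edge leaving the leaf `a` -/
def eO (a : ℕ) : Sym2 (Node (k + 3)) := s(leaf (k + 3) a, leaf (k + 3) (nxt (2 ^ k) a))

theorem leaf_depth (a : ℕ) : (leaf (k + 3) a).1.1 = k + 3 := rfl

theorem leaf_num {a : ℕ} (h : a < 12 * 2 ^ k) : (leaf (k + 3) a).1.2 = a := by
  rw [leaf_eq h]
  rfl

theorem eT_inj {v w : Node (k + 3)} (hv : v.1.1 ≠ 0) (h : eT v = eT w) : v = w := by
  unfold eT at h
  rw [Sym2.eq_iff] at h
  rcases h with ⟨h, -⟩ | ⟨h1, h2⟩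
  · exact h
  · have h3 := par_depth v
    have h4 := par_depth w
    rw [h2] at h3
    rw [← h1] at h4
    omega

theorem eO_inj (hk : 3 ≤ k) {a b : ℕ} (ha : a < 12 * 2 ^ k) (hb : b < 12 * 2 ^ k)
    (h : (eO a : Sym2 (Node (k + 3))) = eO b) : a = b := by
  have hM := pow_ge hk
  unfold eO at h
  rw [Sym2.eq_iff] at h
  rcases h with ⟨h, -⟩ | ⟨h1, h2⟩
  · rw [← leaf_num ha, h, leaf_num hb]
  · exfalso
    have e1 : a = nxt (2 ^ k) b := by rw [← leaf_num ha, h1, leaf_num (nxt_lt hM hb)]
    have e2 : nxt (2 ^ k) a = b := by rw [← leaf_num (nxt_lt hM ha), h2, leaf_num hb]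
    exact nxt2_ne hM ha (by rw [e2, e1])

theorem eT_ne_eO {v : Node (k + 3)} (hv : v.1.1 ≠ 0) (a : ℕ) : eT v ≠ eO a := by
  intro h
  unfold eT eO at h
  rw [Sym2.eq_iff] at h
  have h3 := par_depth v
  rcases h with ⟨h1, h2⟩ | ⟨h1, h2⟩
  · have h4 := leaf_depth (k := k) (nxt (2 ^ k) a)
    rw [← h2] at h4
    have := v.2.1
    omega
  · have h4 := leaf_depth (k := k) a
    rw [← h2] at h4
    have := v.2.1
    omega

/-- the sides of a set of fewer than four edges -/
theorem small_of_set (hk : 3 ≤ k) {D : Set (Sym2 (Node (k + 3)))} (hD : D.ncard < 4)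
    {s : Node (k + 3) → Bool}
    (h : ∀ v w : Node (k + 3), (G k).Adj v w → s(v, w) ∉ D → s v = s w) : Small s := by
  classical
  have hM := pow_ge hk
  intro T O hT hO
  have hTD : ∀ v ∈ T, eT v ∈ D := by
    intro v hv
    by_contra hc
    exact (hT v hv).2 (h _ _ (adj_par (hT v hv).1) hc)
  have hOD : ∀ a ∈ O, eO a ∈ D := by
    intro a ha
    by_contra hc
    refine (hO a ha).2 (h _ _ ?_ hc)
    have h1 := (hO a ha).1
    rw [leaf_eq h1, leaf_eq (nxt_lt hM h1)]
    exact adj_nxt hk h1
  have hsub : ((T.image eT ∪ O.image eO : Finset (Sym2 (Node (k + 3)))) : Set _) ⊆ D := by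
    intro e he
    rw [Finset.mem_coe, Finset.mem_union, Finset.mem_image, Finset.mem_image] at he
    rcases he with ⟨v, hv, rfl⟩ | ⟨a, ha, rfl⟩
    · exact hTD v hv
    · exact hOD a ha
  have h1 := Set.ncard_le_ncard hsub (Set.toFinite D)
  rw [Set.ncard_coe_finset, Finset.card_union_of_disjoint, Finset.card_image_of_injOn,
    Finset.card_image_of_injOn] at h1
  · omega
  · intro a ha b hb hab
    exact eO_inj hk (hO a ha).1 (hO b hb).1 hab
  · intro v hv w _ hvw
    exact eT_inj (hT v hv).1 hvw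
  · rw [Finset.disjoint_left]
    intro e h2 h3
    rw [Finset.mem_image] at h2 h3
    obtain ⟨v, hv, rfl⟩ := h2
    obtain ⟨a, -, h4⟩ := h3
    exact eT_ne_eO (hT v hv).1 a h4.symm

theorem cyclic (hk : 3 ≤ k) (D : Set (Sym2 (Node (k + 3)))) (hD : D.ncard < 4)
    (u v : Node (k + 3)) (c : ((G k).deleteEdges D).Walk u u) (d : ((G k).deleteEdges D).Walk v v)
    (hc : c.IsCycle) (hd : d.IsCycle) : ((G k).deleteEdges D).Reachable u v := by
  classical
  by_contra hn
  set s : Node (k + 3) → Bool := fun w => decide (((G k).deleteEdges D).Reachable u w) with hs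
  have hsm : Small s := by
    refine small_of_set hk hD fun x y hxy hD' => ?_
    have h1 : ((G k).deleteEdges D).Adj x y := by
      rw [SimpleGraph.deleteEdges_adj]
      exact ⟨hxy, hD'⟩
    simp only [hs, decide_eq_decide]
    exact ⟨fun h => h.trans h1.reachable, fun h => h.trans h1.symm.reachable⟩
  obtain ⟨x, hx⟩ := small_cut hk hsm
  obtain ⟨u', hu'⟩ : ∃ u', ((G k).deleteEdges D).Adj u u' := by
    cases c with
    | nil => exact absurd hc.three_le_length (by simp)
    | cons h _ => exact ⟨_, h⟩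
  obtain ⟨v', hv'⟩ : ∃ v', ((G k).deleteEdges D).Adj v v' := by
    cases d with
    | nil => exact absurd hd.three_le_length (by simp)
    | cons h _ => exact ⟨_, h⟩
  have s1 : s u = true := decide_eq_true (SimpleGraph.Reachable.refl u)
  have s2 : s u' = true := decide_eq_true hu'.reachable
  have s3 : s v = false := decide_eq_false hn
  have s4 : s v' = false := decide_eq_false fun h => hn (h.trans hv'.symm.reachable)
  obtain ⟨a, ha, ha'⟩ : ∃ a, a ≠ x ∧ s a = true := by
    by_cases h : u = x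
    · refine ⟨u', fun h' => hu'.ne (h.trans h'.symm), s2⟩
    · exact ⟨u, h, s1⟩
  obtain ⟨b, hb, hb'⟩ : ∃ b, b ≠ x ∧ s b = false := by
    by_cases h : v = x
    · refine ⟨v', fun h' => hv'.ne (h.trans h'.symm), s4⟩
    · exact ⟨v, h, s3⟩
  have := hx a b ha hb
  rw [ha', hb'] at this
  exact Bool.noConfusion this

theorem isSnark (hk : 3 ≤ k) : IsSnark (G k) where
  cubic := cubic hk
  cyclic D _ hD u v c d hc hd := cyclic hk D hD u v c d hc hd
  girth := girth hk
  uncolourable := fun ⟨f, hf⟩ => uncolourable hk f hf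

/-- For every `i ≥ 6` there is a rotation `T_i`-snark. -/
theorem isRotation (hk : 3 ≤ k) : IsRotationTSnark (k + 3) (G k) := by
  have hM := pow_ge hk
  refine ⟨by omega, isSnark hk, Equiv.refl _, fun p q h => Or.inl h, fun a b h => ?_⟩
  have hw := width_leaf k
  have hw3 : width (k + 3) / 3 = 4 * 2 ^ k := by omega
  simp only [Equiv.refl_apply] at h ⊢
  rw [hw3]
  have key : ∀ x y : ℕ, y % (12 * 2 ^ k) = nxt (2 ^ k) (x % (12 * 2 ^ k)) →
      (y + 4 * 2 ^ k) % (12 * 2 ^ k) = nxt (2 ^ k) ((x + 4 * 2 ^ k) % (12 * 2 ^ k)) := by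
    intro x y h
    have h1 := nxt_rot hM (a := x % (12 * 2 ^ k)) (Nat.mod_lt _ (by omega))
    rw [Nat.mod_add_mod, ← h, Nat.mod_add_mod] at h1
    exact h1.symm
  have hn : ∀ x, (leaf (k + 3) x).1 = (k + 3, x % (12 * 2 ^ k)) := by
    intro x
    rw [← hw]
    rfl
  rw [adj_iff] at h ⊢
  rcases h with (h | h) | ⟨-, -, h⟩
  · exfalso
    have := h.1
    rw [hn, hn] at this
    simp at this
  · exfalso
    have := h.1
    rw [hn, hn] at this
    simp at this
  · refine Or.inr ⟨rfl, rfl, ?_⟩
    rw [hn, hn] at h ⊢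
    simp only at h ⊢
    rcases h with h | h
    · exact Or.inl (key _ _ h)
    · exact Or.inr (key _ _ h)

end Pool.Agent.K9h78.RotSnark
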